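import Mathlib
import Pool.Agent.Lib.helper4.BaseRes4

set_option autoImplicit false

namespace Pool.Agent.Results.MP_0ab388_gt.Irresolvable

/-- `A` fills `B`: for every `U ∈ B` and `x ∈ U` there is `W ∈ A` with `W ≠ U` and
`x ∈ W ⊆ U`. -/
def Fills {X : Type} (A B : Set (Set X)) : Prop :=
  ∀ U ∈ B, ∀ x ∈ U, ∃ W ∈ A, W ≠ U ∧ x ∈ W ∧ W ⊆ U

theorem result : ∃ F : Set (Set (ℕ → ℕ)), (∀ U ∈ F, IsClosed U) ∧ Fills F F ∧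
    ¬ ∃ F₀ F₁ : Set (Set (ℕ → ℕ)), F₀ ∪ F₁ = F ∧ Disjoint F₀ F₁ ∧ Fills F₀ F ∧ Fills F₁ F := by
  open Pool.Agent.Lib.helper4.BaseRes in
  exact ⟨Fam, Fam_closed, Fam_fill, fun ⟨F₀, F₁, a, b, c, d⟩ => Fam_irr F₀ F₁ a b c d⟩

end Pool.Agent.Results.MP_0ab388_gt.Irresolvable
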